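import Pool.Agent.Helper76_LAG.Stmt

/-!
# LAG, module CMP2: adding few edges to a linear forest
-/

set_option autoImplicit false

namespace Pool.Agent.LAG

namespace Cmp2

open SimpleGraph

lemma walk_aux {V : Type} (F N : SimpleGraph V)
    (h5 : ∀ u v u' v', N.Adj u v → N.Adj u' v' → F.Reachable u u' → s(u, v) = s(u', v'))
    (u v : V) (huv : N.Adj u v) : ∀ (a b : V) (p : (F ⊔ N).Walk a b), s(u, v) ∉ p.edges →
    F.Reachable u a → F.Reachable u b := by
  intro a b p
  induction p with
  | nil => intro _ h; exact h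
  | @cons a a' b hadj p ih =>
    intro hne hr
    rw [Walk.edges_cons, List.mem_cons, not_or] at hne
    refine ih hne.2 ?_
    rw [sup_adj] at hadj
    rcases hadj with hF | hN
    · exact hr.trans hF.reachable
    · exact absurd (h5 u v a a' huv hN hr) hne.1

theorem acyc {V : Type} (F N : SimpleGraph V) (h1 : F.IsAcyclic)
    (h4 : ∀ u v, N.Adj u v → ¬ F.Reachable u v)
    (h5 : ∀ u v u' v', N.Adj u v → N.Adj u' v' → F.Reachable u u' → s(u, v) = s(u', v')) :
    (F ⊔ N).IsAcyclic := by
  intro w c hc
  by_cases hN : ∃ e ∈ c.edges, e ∈ N.edgeSet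
  · obtain ⟨e, he, heN⟩ := hN
    induction e with
    | _ u v =>
      rw [mem_edgeSet] at heN
      have hb : (F ⊔ N).IsBridge s(u, v) := by
        rw [isBridge_iff_forall_walk_mem_edges]
        intro p
        by_contra hp
        exact h4 u v heN (walk_aux F N h5 u v heN u v p hp (Reachable.refl u))
      exact hb.notMem_edges_of_isCycle hc he
  · push Not at hN
    have hF : ∀ e ∈ c.edges, e ∈ F.edgeSet := by
      intro e he
      have h := c.edges_subset_edgeSet he
      rw [edgeSet_sup] at h
      rcases h with h | h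
      · exact h
      · exact absurd h (hN e he)
    exact h1 (c.transfer F hF) (hc.transfer hF)

theorem degr {V : Type} [Fintype V] (F N : SimpleGraph V)
    (h2 : ∀ v, (F.neighborSet v).ncard ≤ 2)
    (h3 : ∀ u v, N.Adj u v → (F.neighborSet u).ncard ≤ 1)
    (h5 : ∀ u v u' v', N.Adj u v → N.Adj u' v' → F.Reachable u u' → s(u, v) = s(u', v')) :
    ∀ v, ((F ⊔ N).neighborSet v).ncard ≤ 2 := by
  intro v
  have hun : (F ⊔ N).neighborSet v = F.neighborSet v ∪ N.neighborSet v := by
    ext w
    simp [mem_neighborSet]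
  rw [hun]
  have hle := Set.ncard_union_le (F.neighborSet v) (N.neighborSet v)
  by_cases hN : ∃ u, N.Adj v u
  · obtain ⟨u, hu⟩ := hN
    have h := h3 v u hu
    have h1 : (N.neighborSet v).ncard ≤ 1 := by
      rw [Set.ncard_le_one (Set.toFinite _)]
      intro a ha b hb
      rw [mem_neighborSet] at ha hb
      have h6 := h5 v a v b ha hb (Reachable.refl v)
      rw [Sym2.eq_iff] at h6
      rcases h6 with h6 | h6
      · exact h6.2
      · exact absurd h6.1 hb.ne
    omega
  · have h0 : N.neighborSet v = ∅ := by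
      ext w
      simp only [mem_neighborSet, Set.mem_empty_iff_false, iff_false]
      exact fun h => hN ⟨w, h⟩
    rw [h0, Set.union_empty]
    exact h2 v

end Cmp2

theorem cmp2 : Cmp2Stmt := by
  intro V _ F N h1 h2 h3 h4 h5
  exact ⟨Cmp2.acyc F N h1 h4 h5, Cmp2.degr F N h2 h3 h5⟩

end Pool.Agent.LAG
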