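import Pool.Agent.Helper76_LAG.Stmt

/-!
# LAG, module HCY: a set of edges which hits all cycles
-/

set_option autoImplicit false

namespace Pool.Agent.LAG

open SimpleGraph

namespace Hcy

/-! ### Cycles as sequences -/

lemma isC_of_cycle {V : Type} (G : SimpleGraph V) {v : V} (c : G.Walk v v) (hc : c.IsCycle) :
    IsC G c.getVert c.length := by
  have h3 := hc.three_le_length
  refine ⟨h3, fun t ht => c.adj_getVert_succ ht, ?_, ?_⟩
  · rw [Walk.getVert_length, Walk.getVert_zero]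
  · intro s t hs ht hst
    exact hc.getVert_injOn' (by rw [Set.mem_ofPred_eq]; omega) (by rw [Set.mem_ofPred_eq]; omega)
      hst

lemma isC_mono {V : Type} {G H : SimpleGraph V} (hHG : H ≤ G) {z : ℕ → V} {m : ℕ}
    (h : IsC H z m) : IsC G z m :=
  ⟨h.1, fun t ht => hHG (h.2.1 t ht), h.2.2.1, h.2.2.2⟩

lemma isC_reach {V : Type} {G : SimpleGraph V} {z : ℕ → V} {m : ℕ} (h : IsC G z m) :
    ∀ t, t ≤ m → G.Reachable (z 0) (z t) := by
  intro t
  induction t with
  | zero => intro _; exact Reachable.refl _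
  | succ t ih => intro ht; exact (ih (by omega)).trans (h.2.1 t (by omega)).reachable

lemma isC_succ {V : Type} {G : SimpleGraph V} {z : ℕ → V} {m : ℕ} (h : IsC G z m) (t : ℕ)
    (ht : t < m) : ∃ t', t' < m ∧ z (t + 1) = z t' ∧ ((t + 1 < m ∧ t' = t + 1) ∨
      (t + 1 = m ∧ t' = 0)) := by
  by_cases h1 : t + 1 < m
  · exact ⟨t + 1, h1, rfl, Or.inl ⟨h1, rfl⟩⟩
  · have h2 : t + 1 = m := by omega
    refine ⟨0, by omega, ?_, Or.inr ⟨h2, rfl⟩⟩
    rw [h2, h.2.2.1]

lemma isC_edge_inj {V : Type} {G : SimpleGraph V} {z : ℕ → V} {m : ℕ} (h : IsC G z m)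
    (s t : ℕ) (hs : s < m) (ht : t < m) (hst : s(z s, z (s + 1)) = s(z t, z (t + 1))) :
    s = t := by
  rw [Sym2.eq_iff] at hst
  rcases hst with h1 | ⟨h1, h2⟩
  · exact h.2.2.2 s t hs ht h1.1
  · obtain ⟨s', hs', hs1, hs2⟩ := isC_succ h s hs
    obtain ⟨t', ht', ht1, ht2⟩ := isC_succ h t ht
    rw [ht1] at h1
    rw [hs1] at h2
    have e1 := h.2.2.2 s t' hs ht' h1
    have e2 := h.2.2.2 s' t hs' ht h2
    have h3 := h.1
    omega

/-! ### Enumeration of a subset -/

lemma enum (S : Set ℕ) (hS : S.Finite) (N : ℕ) (hN : N ≤ S.ncard) :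
    ∃ g : ℕ → ℕ, (∀ a, a < N → g a ∈ S) ∧ ∀ a b, a < N → b < N → g a = g b → a = b := by
  classical
  have hcard : hS.toFinset.card = S.ncard := (Set.ncard_eq_toFinset_card S hS).symm
  let ee := hS.toFinset.equivFin
  refine ⟨fun a => if ha : a < hS.toFinset.card then (ee.symm ⟨a, ha⟩).1 else 0, ?_, ?_⟩
  · intro a ha
    have ha' : a < hS.toFinset.card := by omega
    simp only [ha', dite_true]
    exact hS.mem_toFinset.mp (ee.symm ⟨a, ha'⟩).2
  · intro a b ha hb hab
    have ha' : a < hS.toFinset.card := by omega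
    have hb' : b < hS.toFinset.card := by omega
    simp only [ha', hb', dite_true] at hab
    have h1 := ee.symm.injective (Subtype.ext hab)
    exact Fin.mk.inj_iff.mp h1

/-! ### Counting the edges in conflict with an edge -/

lemma inc_card {V : Type} [Fintype V] (A : SimpleGraph V) (u : V) :
    {e : Sym2 V | u ∈ e ∧ e ∈ A.edgeSet}.ncard ≤ (A.neighborSet u).ncard := by
  have hsub : {e : Sym2 V | u ∈ e ∧ e ∈ A.edgeSet} ⊆ (fun w => s(u, w)) '' (A.neighborSet u) := by
    rintro e ⟨hu, he⟩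
    obtain ⟨w, rfl⟩ := Sym2.mem_iff_exists.mp hu
    exact ⟨w, he, rfl⟩
  exact (Set.ncard_le_ncard hsub (Set.toFinite _)).trans (Set.ncard_image_le (Set.toFinite _))

lemma mem_card {V : Type} (e : Sym2 V) : {u : V | u ∈ e}.ncard ≤ 2 ∧ {u : V | u ∈ e}.Finite := by
  induction e with
  | _ a b =>
    have h : {u : V | u ∈ s(a, b)} = {a, b} := by
      ext u
      simp
    rw [h]
    refine ⟨?_, Set.toFinite _⟩
    have h2 := Set.ncard_insert_le a {b}
    rw [Set.ncard_singleton] at h2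
    exact h2

lemma biUnion_card {α β : Type} [Finite β] (s : Set α) (hs : s.Finite) (f : α → Set β) (n : ℕ)
    (hf : ∀ a ∈ s, (f a).ncard ≤ n) : (⋃ a ∈ s, f a).ncard ≤ s.ncard * n := by
  classical
  induction s, hs using Set.Finite.induction_on with
  | empty => simp
  | @insert a s ha hs ih =>
    have h1 : (⋃ x ∈ insert a s, f x) = f a ∪ ⋃ x ∈ s, f x := by
      rw [Set.biUnion_insert]
    rw [h1, Set.ncard_insert_of_notMem ha hs]
    have h2 := Set.ncard_union_le (f a) (⋃ x ∈ s, f x)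
    have h3 := ih (fun x hx => hf x (Set.mem_insert_of_mem a hx))
    have h4 := hf a (Set.mem_insert a s)
    nlinarith

lemma conf_card {V : Type} [Fintype V] (M : SimpleGraph V) {k : ℕ} (A : Fin k → SimpleGraph V)
    (hA : ∀ j v, ((A j).neighborSet v).ncard ≤ 2) (hM : ∀ a, {b | M.Reachable a b}.ncard ≤ 3)
    (J : Set (Fin k)) (ε : Sym2 V) :
    {e : Sym2 V | (∃ u ∈ ε, ∃ u' ∈ e, M.Reachable u u') ∧ ∃ j ∈ J, e ∈ (A j).edgeSet}.ncard
      ≤ 12 * J.ncard := by
  have hsub : {e : Sym2 V | (∃ u ∈ ε, ∃ u' ∈ e, M.Reachable u u') ∧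
      ∃ j ∈ J, e ∈ (A j).edgeSet} ⊆
      ⋃ u ∈ {u : V | u ∈ ε}, ⋃ u' ∈ {b | M.Reachable u b}, ⋃ j ∈ J,
        {e : Sym2 V | u' ∈ e ∧ e ∈ (A j).edgeSet} := by
    rintro e ⟨⟨u, hu, u', hu', hr⟩, j, hj, he⟩
    simp only [Set.mem_iUnion]
    exact ⟨u, hu, u', hr, j, hj, hu', he⟩
  have h1 : ∀ u' : V, (⋃ j ∈ J, {e : Sym2 V | u' ∈ e ∧ e ∈ (A j).edgeSet}).ncard
      ≤ J.ncard * 2 := fun u' =>
    biUnion_card J (Set.toFinite _) _ 2 (fun j _ => (inc_card (A j) u').trans (hA j u'))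
  have h2 : ∀ u : V, (⋃ u' ∈ {b | M.Reachable u b}, ⋃ j ∈ J,
      {e : Sym2 V | u' ∈ e ∧ e ∈ (A j).edgeSet}).ncard ≤ 3 * (J.ncard * 2) := fun u =>
    (biUnion_card {b | M.Reachable u b} (Set.toFinite _) _ (J.ncard * 2)
      (fun u' _ => h1 u')).trans (Nat.mul_le_mul_right _ (hM u))
  have h3 := (biUnion_card {u : V | u ∈ ε} (Set.toFinite _) (fun u => ⋃ u' ∈ {b | M.Reachable u b},
    ⋃ j ∈ J, {e : Sym2 V | u' ∈ e ∧ e ∈ (A j).edgeSet}) (3 * (J.ncard * 2))
    (fun u _ => h2 u)).trans (Nat.mul_le_mul_right _ (mem_card ε).1)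
  have h4 := Set.ncard_le_ncard hsub (Set.toFinite _)
  omega

/-! ### Representatives of the components -/

/-- A representative of the component of `v`. -/
noncomputable def rep {V : Type} (A : SimpleGraph V) (v : V) : V :=
  Quot.out (A.connectedComponentMk v)

lemma rep_reach {V : Type} (A : SimpleGraph V) (v : V) : A.Reachable (rep A v) v := by
  have h : A.connectedComponentMk (rep A v) = A.connectedComponentMk v :=
    Quot.out_eq (A.connectedComponentMk v)
  exact ConnectedComponent.exact h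

lemma rep_eq {V : Type} (A : SimpleGraph V) {v w : V} (h : A.Reachable v w) :
    rep A v = rep A w := by
  unfold rep
  rw [ConnectedComponent.sound h]

/-- The items: components (of some `A j`) which contain a cycle. -/
def Item {V : Type} {k : ℕ} (A : Fin k → SimpleGraph V) : Type :=
  {p : Fin k × V // rep (A p.1) p.2 = p.2 ∧
    ∃ (z : ℕ → V) (m : ℕ), IsC (A p.1) z m ∧ (A p.1).Reachable p.2 (z 0)}

noncomputable instance {V : Type} [Fintype V] {k : ℕ} (A : Fin k → SimpleGraph V) :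
    Fintype (Item A) := by
  unfold Item
  exact Fintype.ofFinite _

/-- The chosen data of an item: a cycle and `N` of its edges which are far from `X`. -/
lemma item_data {V : Type} {k : ℕ} (hav : AvcStmt) (hcl : CycLenStmt) (G : SimpleGraph V)
    (A : Fin k → SimpleGraph V) (X : Set V) (hG : Big G 18)
    (hX : ∀ x ∈ X, ∀ y ∈ X, x ≠ y → ¬ near G 18 x y) (hAG : ∀ j, A j ≤ G) (N : Fin k → ℕ)
    (hbig : ∀ j, Big (A j) (2 * N j)) (i : Item A) :
    ∃ (z : ℕ → V) (m : ℕ) (g : ℕ → ℕ), IsC (A i.1.1) z m ∧ (A i.1.1).Reachable i.1.2 (z 0) ∧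
      (∀ a, a < N i.1.1 → g a < m ∧ ¬ ∃ x ∈ X, near G 4 (z (g a)) x) ∧
      ∀ a b, a < N i.1.1 → b < N i.1.1 → g a = g b → a = b := by
  obtain ⟨z, m, hz, hr⟩ := i.2.2
  have hm := hcl V (A i.1.1) (2 * N i.1.1) (hbig i.1.1) z m hz
  have hc := hav V G 4 X hG hX z m (isC_mono (hAG i.1.1) hz)
  obtain ⟨g, hg1, hg2⟩ := enum {t : ℕ | t < m ∧ ¬ ∃ x ∈ X, near G 4 (z t) x}
    ((Set.finite_lt_nat m).subset (fun t ht => ht.1)) (N i.1.1) (by omega)
  exact ⟨z, m, g, hz, hr, fun a ha => hg1 a ha, hg2⟩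

lemma near_step {V : Type} {G : SimpleGraph V} {u v x : V} (h : G.Adj u v)
    (hn : near G 3 v x) : near G 4 u x := by
  obtain ⟨p, hp⟩ := hn
  refine ⟨Walk.cons h p, ?_⟩
  rw [Walk.length_cons]
  omega

lemma near_34 {V : Type} {G : SimpleGraph V} {u x : V} (hn : near G 3 u x) : near G 4 u x := by
  obtain ⟨p, hp⟩ := hn
  exact ⟨p, by omega⟩

end Hcy

open Hcy in
theorem hcy (hhit : HitStmt) (hav : AvcStmt) (hcmp : Cmp1Stmt) (hcl : CycLenStmt) : HcyStmt := by
  classical
  intro V _ G M k N1 N2 kd A X hG hX hAG hdis hA2 hbig hkd hM hN1 hN2 hnum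
  have hdata := fun i : Item A => item_data hav hcl G A X hG hX hAG
    (fun j => if kd j then N1 else N2) (fun j => by
      have h := hbig j
      by_cases hj : kd j = true
      · simpa [hj] using h
      · simpa [hj] using h) i
  choose z m g hz hr hg hgi using hdata
  -- the edges
  let e : Item A → ℕ → Sym2 V := fun i a => s(z i (g i a), z i (g i a + 1))
  let kind : Item A → Bool := fun i => kd i.1.1
  let R : Item A → ℕ → Item A → ℕ → Prop := fun i a j b =>
    ∃ u ∈ e i a, ∃ u' ∈ e j b, M.Reachable u u'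
  have hmem : ∀ i a, a < (if kind i then N1 else N2) → e i a ∈ (A i.1.1).edgeSet := by
    intro i a ha
    exact (hz i).2.1 (g i a) (hg i a ha).1
  have hinj : ∀ i a j b, a < (if kind i then N1 else N2) → b < (if kind j then N1 else N2) →
      e i a = e j b → i = j ∧ a = b := by
    intro i a j b ha hb hab
    have h1 := hmem i a ha
    have h2 := hmem j b hb
    have hj : i.1.1 = j.1.1 := by
      by_contra hne
      have h3 := hdis _ _ hne
      rw [← disjoint_edgeSet, Set.disjoint_left] at h3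
      exact h3 h1 (hab ▸ h2)
    have hri : (A i.1.1).Reachable i.1.2 (z i (g i a)) :=
      (hr i).trans (isC_reach (hz i) _ (hg i a ha).1.le)
    have hrj : (A i.1.1).Reachable j.1.2 (z i (g i a)) := by
      rw [hj]
      have hm' : z i (g i a) ∈ e j b := by
        rw [← hab]
        exact Sym2.mem_mk_left _ _
      rcases Sym2.mem_iff.mp hm' with h4 | h4
      · rw [h4]
        exact (hr j).trans (isC_reach (hz j) _ (hg j b hb).1.le)
      · rw [h4]
        exact (hr j).trans (isC_reach (hz j) _ (hg j b hb).1)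
    have hrep : rep (A i.1.1) i.1.2 = rep (A i.1.1) j.1.2 := rep_eq _ (hri.trans hrj.symm)
    have hij : i = j := by
      apply Subtype.ext
      apply Prod.ext hj
      rw [← i.2.1, hrep, hj, j.2.1]
    subst hij
    refine ⟨rfl, ?_⟩
    exact hgi i a b ha hb (isC_edge_inj (hz i) _ _ (hg i a ha).1 (hg i b hb).1 hab)
  -- the counting
  have hcount : ∀ (J : Set (Fin k)) (c : Bool), (∀ j, kd j = c → j ∈ J) → ∀ i a,
      {p : Item A × ℕ | kind p.1 = c ∧ p.2 < (if c then N1 else N2) ∧ R i a p.1 p.2}.ncard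
        ≤ 12 * J.ncard := by
    intro J c hJ i a
    refine le_trans ?_ (conf_card M A hA2 hM J (e i a))
    refine Set.ncard_le_ncard_of_injOn (fun p => e p.1 p.2) ?_ ?_ (Set.toFinite _)
    · rintro ⟨j, b⟩ ⟨h1, h2, h3⟩
      refine ⟨h3, j.1.1, hJ _ h1, ?_⟩
      apply hmem j b
      have h1' : kind j = c := h1
      rw [h1']
      exact h2
    · rintro ⟨j, b⟩ ⟨h1, h2, h3⟩ ⟨j', b'⟩ ⟨h1', h2', h3'⟩ heq
      have k1 : kind j = c := h1
      have k2 : kind j' = c := h1'
      have h4 := hinj j b j' b' (by rw [k1]; exact h2) (by rw [k2]; exact h2') heq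
      rw [Prod.mk.injEq]
      exact h4
  have hJ1 : {j : Fin k | kd j = true}.ncard ≤ 1 := by
    rw [Set.ncard_le_one (Set.toFinite _)]
    intro a ha b hb
    exact hkd a b ha hb
  have hJ2 : {j : Fin k | kd j = false}.ncard ≤ k := by
    have h := Set.ncard_le_card {j : Fin k | kd j = false}
    rwa [Nat.card_eq_fintype_card, Fintype.card_fin] at h
  obtain ⟨f, hf1, hf2⟩ := hhit (Item A) N1 N2 12 (12 * k) kind R hN1 hN2 hnum
    (by
      rintro i a j b ⟨u, hu, u', hu', hruu⟩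
      exact ⟨u', hu', u, hu, hruu.symm⟩)
    (by
      intro i a _
      constructor
      · have h := hcount {j : Fin k | kd j = true} true (fun j hj => hj) i a
        simp only [if_true] at h
        exact h.trans (by omega)
      · have h := hcount {j : Fin k | kd j = false} false (fun j hj => hj) i a
        simp only [Bool.false_eq_true, if_false] at h
        exact h.trans (Nat.mul_le_mul_left 12 hJ2))
  refine ⟨{ε | ∃ i, ε = e i (f i)}, ?_, ?_, ?_, ?_⟩
  · rintro ε ⟨i, rfl⟩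
    exact ⟨i.1.1, hmem i (f i) (hf1 i)⟩
  · intro j
    apply hcmp V (A j) _ (hA2 j)
    intro v c hc
    have hrr : rep (A j) (rep (A j) v) = rep (A j) v := rep_eq _ (rep_reach _ v)
    let i : Item A := ⟨(j, rep (A j) v), hrr, c.getVert, c.length, isC_of_cycle (A j) c hc, by
      rw [Walk.getVert_zero]
      exact rep_reach _ v⟩
    refine ⟨e i (f i), ⟨i, rfl⟩, hmem i (f i) (hf1 i), z i (g i (f i)), Sym2.mem_mk_left _ _, ?_⟩
    exact (rep_reach (A j) v).symm.trans ((hr i).trans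
      (isC_reach (hz i) _ (hg i (f i) (hf1 i)).1.le))
  · rintro ε ⟨i, rfl⟩ u hu x hx hn
    have hfar := (hg i (f i) (hf1 i)).2
    rcases Sym2.mem_iff.mp hu with h4 | h4
    · rw [h4] at hn
      exact hfar ⟨x, hx, near_34 hn⟩
    · rw [h4] at hn
      exact hfar ⟨x, hx, near_step (hAG _ ((hz i).2.1 _ (hg i (f i) (hf1 i)).1)) hn⟩
  · rintro ε ⟨i, rfl⟩ ε' ⟨j, rfl⟩ u hu u' hu' hruu
    by_cases hij : i = j
    · rw [hij]
    · exact absurd ⟨u, hu, u', hu', hruu⟩ (hf2 i j hij)

end Pool.Agent.LAG
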