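import Pool.Agent.Helper76_LAG.Stmt

/-!
# LAG, module MAIN: splitting of graphs of maximum degree four
-/

set_option autoImplicit false

namespace Pool.Agent.LAG

open SimpleGraph

namespace MainM

lemma near_comp {V : Type} (G : SimpleGraph V) {r s : ℕ} {a b c : V} (h1 : near G r a b)
    (h2 : near G s b c) : near G (r + s) a c := by
  obtain ⟨p, hp⟩ := h1
  obtain ⟨q, hq⟩ := h2
  refine ⟨p.append q, ?_⟩
  rw [Walk.length_append]
  omega

lemma near_refl {V : Type} (G : SimpleGraph V) (r : ℕ) (a : V) : near G r a a :=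
  ⟨Walk.nil, by simp⟩

lemma near_adj {V : Type} (G : SimpleGraph V) {r : ℕ} {a b : V} (h : G.Adj a b) (hr : 1 ≤ r) :
    near G r a b := ⟨h.toWalk, by simpa using hr⟩

lemma near_mono {V : Type} (G : SimpleGraph V) {r s : ℕ} {a b : V} (h : near G r a b)
    (hrs : r ≤ s) : near G s a b := by
  obtain ⟨p, hp⟩ := h
  exact ⟨p, hp.trans hrs⟩

/-- Number of vertices on a path which are allowed to kill. -/
lemma count_al {V : Type} (hav : AvpStmt) (G : SimpleGraph V) (U : Set V) (T : ℕ) (hT : 86 ≤ T)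
    (hB : Big G 82) (hU : ∀ u ∈ U, ∀ u' ∈ U, u ≠ u' → ¬ near G 82 u u')
    (al : V → Prop) (hal : ∀ v, al v ↔ ¬ ∃ x ∈ U, near G 20 v x)
    (H : SimpleGraph V) (hH : H ≤ G) (z : ℕ → V) (hz : IsP H z T) :
    (T - 43) / 2 ≤ {t : ℕ | 0 < t ∧ t < T ∧ al (z t)}.ncard := by
  have hz' : IsP G z (T - 1) := by
    refine ⟨fun t ht => hH (hz.1 t (by omega)), fun s t hs ht hst => hz.2 s t (by omega)
      (by omega) hst⟩
  have h := hav V G 20 U (by simpa using hB) (by simpa using hU) z (T - 1) hz'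
  have he : {t : ℕ | 0 < t ∧ t ≤ T - 1 ∧ ¬ ∃ x ∈ U, near G 20 (z t) x} =
      {t : ℕ | 0 < t ∧ t < T ∧ al (z t)} := by
    ext t
    simp only [Set.mem_ofPred_eq]
    rw [hal (z t)]
    constructor
    · rintro ⟨h1, h2, h3⟩
      exact ⟨h1, by omega, h3⟩
    · rintro ⟨h1, h2, h3⟩
      exact ⟨h1, by omega, h3⟩
  rw [he] at h
  omega

/-- An edge which is not covered is killed. -/
lemma killer {V : Type} {L T : ℕ} (hsega : SegaStmt) (E : Env V) (ω : V → St L)
    (ht : Tame E ω T) (u v : V)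
    (h : (E.H \ (CG E ω T false ⊔ CG E ω T true)).Adj u v) :
    ∃ x y, ((x = u ∧ y = v) ∨ (x = v ∧ y = u)) ∧ E.H.Adj x y ∧ Kil E ω x y := by
  rw [sdiff_adj, sup_adj, not_or] at h
  obtain ⟨hadj, h0, h1⟩ := h
  have hna : ¬ Alv E ω u v := by
    intro ha
    have hc := (hsega V L T E ω ht).2.2.2.1 u v ha
    by_cases hcol : col E ω T (u, v) = true
    · exact h1 ⟨ha, hcol, by rw [← hc]; exact hcol⟩
    · have hcol' : col E ω T (u, v) = false := by
        simpa using hcol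
      exact h0 ⟨ha, hcol', by rw [← hc]; exact hcol'⟩
  by_cases hk : Kil E ω u v
  · exact ⟨u, v, Or.inl ⟨rfl, rfl⟩, hadj, hk⟩
  · by_cases hk' : Kil E ω v u
    · exact ⟨v, u, Or.inr ⟨rfl, rfl⟩, hadj.symm, hk'⟩
    · exact absurd ⟨hadj, hk, hk'⟩ hna

lemma near_end {V : Type} (G H : SimpleGraph V) (hH : H ≤ G) {u v x y : V}
    (hxy : (x = u ∧ y = v) ∨ (x = v ∧ y = u)) (hadj : H.Adj x y) : near G 1 x u := by
  rcases hxy with ⟨rfl, rfl⟩ | ⟨rfl, rfl⟩
  · exact near_refl G 1 _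
  · exact near_adj G (hH hadj) le_rfl

lemma near_end' {V : Type} (G H : SimpleGraph V) (hH : H ≤ G) {u v x y : V}
    (hxy : (x = u ∧ y = v) ∨ (x = v ∧ y = u)) (hadj : H.Adj x y) : near G 1 u x := by
  rcases hxy with ⟨rfl, rfl⟩ | ⟨rfl, rfl⟩
  · exact near_refl G 1 _
  · exact near_adj G (hH hadj).symm le_rfl

lemma edge_eq {V : Type} {u v x y : V} (hxy : (x = u ∧ y = v) ∨ (x = v ∧ y = u)) :
    s(u, v) = s(x, y) := by
  rcases hxy with ⟨rfl, rfl⟩ | ⟨rfl, rfl⟩
  · rfl
  · exact Sym2.eq_swap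

end MainM

theorem main (hjnt : JntStmt) (hslot : SlotStmt) (havp : AvpStmt) (hsega : SegaStmt)
    (hdeg : DegStmt) (hded : DedStmt) : MainStmt := by
  intro V _ Δ h ℓ T L hnum hh G hG hdG Q _ hQ H hH hdH U hU
  have hE : ∀ q, ∃ E : Env V, E.H = H q ∧ E.al = fun v => ¬ ∃ x ∈ U, near G 20 v x :=
    fun q => hslot V (H q) _ (hdH q)
  choose E hEH hEal using hE
  have hT : 86 ≤ T := hnum.2.1
  have hB82 : Big G 82 := fun v c hc => lt_of_le_of_lt hh (hG v c hc)
  obtain ⟨ω, hω1, hω2⟩ := hjnt V Δ h ℓ T L hnum G hG hdG Q hQ E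
    (fun q => by rw [hEH q]; exact hH q)
    (fun q z hz => MainM.count_al havp G U T hT hB82 hU (E q).al
      (fun v => by rw [hEal q]) (E q).H (by rw [hEH q]; exact hH q) z hz)
  have hEG : ∀ q, (E q).H ≤ G := fun q => by rw [hEH q]; exact hH q
  refine ⟨fun q c => CG (E q) (ω q) T c, ?_, ?_, ?_, ?_, ?_, ?_⟩
  · intro q c u v huv
    rw [← hEH q]
    exact huv.1.1
  · intro q
    rw [← disjoint_edgeSet, Set.disjoint_left]
    intro e
    induction e with
    | _ u v =>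
      intro h0 h1
      rw [mem_edgeSet] at h0 h1
      have h2 := h0.2.1
      rw [h1.2.1] at h2
      exact absurd h2 (by decide)
  · intro q c v
    exact hdeg V L T (E q) (ω q) (hω1 q).1 c v
  · intro q c
    exact hded V L T ℓ (E q) (ω q) (hω1 q).1 (hω1 q).2 c
  · intro q u v q' u' v' h1 h2 hne hnear
    rw [← hEH q] at h1
    rw [← hEH q'] at h2
    obtain ⟨x, y, hxy, hadj, hk⟩ := MainM.killer hsega (E q) (ω q) (hω1 q).1 u v h1
    obtain ⟨x', y', hxy', hadj', hk'⟩ := MainM.killer hsega (E q') (ω q') (hω1 q').1 u' v' h2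
    have hn : near G 20 x x' := by
      have h3 := MainM.near_comp G (MainM.near_comp G (MainM.near_end G (E q).H (hEG q) hxy hadj)
        hnear) (MainM.near_end' G (E q').H (hEG q') hxy' hadj')
      exact h3
    have hlt : (ω q x).1.2.val < 4 := by
      rw [hk.2]; exact ((E q).slot x y).isLt
    have hlt' : (ω q' x').1.2.val < 4 := by
      rw [hk'.2]; exact ((E q').slot x' y').isLt
    have heq : (q, x) = (q', x') := by
      by_contra hne'
      exact hω2 q x q' x' hne' hn ⟨hlt, hlt'⟩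
    rw [Prod.mk.injEq] at heq
    obtain ⟨rfl, rfl⟩ := heq
    have hsl : (E q).slot x y = (E q).slot x y' := by
      apply Fin.ext
      rw [← hk.2, ← hk'.2]
    have hyy : y = y' := (E q).slot_inj x y y' hadj hadj' hsl
    subst hyy
    apply hne
    rw [MainM.edge_eq hxy, MainM.edge_eq hxy']
  · intro q u v h1 x hx hnear
    rw [← hEH q] at h1
    obtain ⟨k, y, hxy, hadj, hk⟩ := MainM.killer hsega (E q) (ω q) (hω1 q).1 u v h1
    have hal := hk.1
    rw [hEal q] at hal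
    apply hal
    refine ⟨x, hx, ?_⟩
    have h3 := MainM.near_comp G (MainM.near_end G (E q).H (hEG q) hxy hadj) hnear
    exact h3

end Pool.Agent.LAG
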